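import Pool.Agent.H950.ON.St

/-!
# Project ON (helper950), O7: the number of walls in a parallelogram
-/

set_option autoImplicit false

namespace Pool.Agent.H190.ON.crd

open Pool.Agent.X136.ON
open Pool.Agent.H950.ON (TD bx wl plV Fits)

theorem nb (e : Ed) : (s1 e).1 ≤ (s2 e).1 + 1 ∧ (s2 e).1 ≤ (s1 e).1 + 1 ∧
    (s1 e).2 ≤ (s2 e).2 + 1 ∧ (s2 e).2 ≤ (s1 e).2 + 1 := by
  obtain ⟨i, j, k⟩ := e
  cases k <;> simp only [s1, s2] <;> refine ⟨?_, ?_, ?_, ?_⟩ <;> omega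

theorem mem_W {D : TD} {h : Hx} : h ∈ D.W ↔ h.1 ≤ D.w h.2 := Iff.rfl

theorem mem_Z {D : TD} {h : Hx} : h ∈ D.Z ↔ D.z h.2 ≤ h.1 := Iff.rfl

theorem mem_bx {l r c d : ℤ} {h : Hx} :
    h ∈ bx l r c d ↔ (l ≤ h.1 ∧ h.1 ≤ r) ∧ (c ≤ h.2 ∧ h.2 ≤ d) := by
  unfold Pool.Agent.H950.ON.bx
  rw [Finset.mem_product, Finset.mem_Icc, Finset.mem_Icc]

theorem mem_ES {D : TD} {e : Ed} : e ∈ D.ES ↔ (D.lo ≤ (s1 e).2 ∧ (s1 e).2 ≤ D.hi) ∧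
    (D.lo ≤ (s2 e).2 ∧ (s2 e).2 ≤ D.hi) ∧ ¬ (s1 e ∈ D.W ∧ s2 e ∈ D.W) ∧
    ¬ (s1 e ∈ D.Z ∧ s2 e ∈ D.Z) := Iff.rfl

/-- the edges of the domain are in the parallelogram -/
theorem ES_bx {D : TD} {l r c d : ℤ} (h : Fits D l r c d) {e : Ed} (he : e ∈ D.ES) :
    s1 e ∈ bx l r c d ∧ s2 e ∈ bx l r c d := by
  rw [mem_ES, mem_W, mem_W, mem_Z, mem_Z] at he
  obtain ⟨h1, h2, h3, h4⟩ := he
  obtain ⟨n1, n2, n3, n4⟩ := nb e
  have hlo := h.lo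
  have hhi := h.hi
  have w1 := h.w (s1 e).2 (by omega) (by omega)
  have w2 := h.w (s2 e).2 (by omega) (by omega)
  have z1 := h.z (s1 e).2 (by omega) (by omega)
  have z2 := h.z (s2 e).2 (by omega) (by omega)
  rw [mem_bx, mem_bx]
  refine ⟨⟨⟨?_, ?_⟩, ?_, ?_⟩, ⟨?_, ?_⟩, ?_, ?_⟩ <;> omega

/-- the other walls do not depend on the colouring -/
theorem wall_iff {D : TD} {F : Finset Hx} (hF : F ⊆ D.ins) {e : Ed} (he : e ∉ D.ES) :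
    (s1 e ∈ D.pl F ↔ s2 e ∈ D.pl F) ↔ (s1 e ∈ D.W ↔ s2 e ∈ D.W) := by
  have hp : ∀ x : Hx, x ∈ D.pl F ↔ x ∈ D.W ∨ x ∈ F := fun x => Iff.rfl
  have hout : ∀ x : Hx, (x ∈ D.W ∨ x ∈ D.Z) → x ∉ F := fun x hx hxF => by
    have := D.mem_ins.1 (hF hxF)
    exact hx.elim this.1 this.2
  by_cases hW : s1 e ∈ D.W ∧ s2 e ∈ D.W
  · simp only [hp, hW.1, hW.2, true_or]
  by_cases hZ : s1 e ∈ D.Z ∧ s2 e ∈ D.Z
  · have f1 := hout _ (Or.inr hZ.1)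
    have f2 := hout _ (Or.inr hZ.2)
    simp only [hp, f1, f2, or_false]
  -- the rows outside
  have hrow : ∀ y : ℤ, y ≤ D.lo ∨ D.hi ≤ y → ∀ x : Hx, x.2 = y → x ∉ F := by
    intro y hy x hx
    apply hout
    rw [mem_W, mem_Z, hx]
    have hz : D.z y = D.w y + 1 := hy.elim (D.bot y) (D.top y)
    omega
  rw [mem_ES] at he
  obtain ⟨n1, n2, n3, n4⟩ := nb e
  have hr : ((s1 e).2 ≤ D.lo ∨ D.hi ≤ (s1 e).2) ∧ ((s2 e).2 ≤ D.lo ∨ D.hi ≤ (s2 e).2) := by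
    by_contra hc
    apply he
    refine ⟨?_, ?_, hW, hZ⟩ <;> constructor <;> omega
  have f1 := hrow _ hr.1 _ rfl
  have f2 := hrow _ hr.2 _ rfl
  simp only [hp, f1, f2, or_false]

theorem fin_V (V : Finset Hx) : {e : Ed | s1 e ∈ V}.Finite := by
  have h : {e : Ed | s1 e ∈ V} ⊆ ⋃ x ∈ V, (({((x.1, x.2, Dir.A) : Ed), (x.1, x.2, Dir.B),
      (x.1 - 1, x.2, Dir.C)} : Finset Ed) : Set Ed) := by
    rintro ⟨i, j, k⟩ he
    have he' : s1 (i, j, k) ∈ V := he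
    refine Set.mem_biUnion he' ?_
    cases k <;> simp [s1]
  exact Set.Finite.subset (Set.Finite.biUnion V.finite_toSet fun x _ => Finset.finite_toSet _) h

theorem t_crd : Pool.Agent.H950.ON.S_crd := by
  classical
  intro D l r c d hfit
  refine ⟨{e : Ed | (s1 e ∈ bx l r c d ∧ s2 e ∈ bx l r c d ∧ e ∉ D.ES) ∧
    ¬ (s1 e ∈ D.W ↔ s2 e ∈ D.W)}.ncard, fun F hF => ?_⟩
  have hmem : ∀ x : Hx, x ∈ bx l r c d → (x ∈ plV D (bx l r c d) F ↔ x ∈ D.pl F) := by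
    intro x hx
    unfold Pool.Agent.H950.ON.plV
    rw [Finset.mem_filter]
    exact ⟨fun h => h.2, fun h => ⟨hx, h⟩⟩
  unfold Pool.Agent.H950.ON.wl
  have hset : {e : Ed | s1 e ∈ bx l r c d ∧ s2 e ∈ bx l r c d ∧
      ¬ (s1 e ∈ plV D (bx l r c d) F ↔ s2 e ∈ plV D (bx l r c d) F)} =
      ((D.om F : Finset Ed) : Set Ed) ∪ {e : Ed | (s1 e ∈ bx l r c d ∧ s2 e ∈ bx l r c d ∧
        e ∉ D.ES) ∧ ¬ (s1 e ∈ D.W ↔ s2 e ∈ D.W)} := by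
    ext e
    have hom : e ∈ ((D.om F : Finset Ed) : Set Ed) ↔
        e ∈ D.ES ∧ ¬ (s1 e ∈ D.pl F ↔ s2 e ∈ D.pl F) := by
      rw [Finset.mem_coe]
      unfold Pool.Agent.H950.ON.TD.om
      rw [Finset.mem_filter, D.mem_E]
    have hL : e ∈ {e : Ed | s1 e ∈ bx l r c d ∧ s2 e ∈ bx l r c d ∧
        ¬ (s1 e ∈ plV D (bx l r c d) F ↔ s2 e ∈ plV D (bx l r c d) F)} ↔
        s1 e ∈ bx l r c d ∧ s2 e ∈ bx l r c d ∧ ¬ (s1 e ∈ D.pl F ↔ s2 e ∈ D.pl F) := by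
      constructor
      · rintro ⟨h1, h2, h3⟩
        rw [hmem _ h1, hmem _ h2] at h3
        exact ⟨h1, h2, h3⟩
      · rintro ⟨h1, h2, h3⟩
        rw [← hmem _ h1, ← hmem _ h2] at h3
        exact ⟨h1, h2, h3⟩
    rw [Set.mem_union, hL, hom]
    constructor
    · rintro ⟨h1, h2, h3⟩
      by_cases he : e ∈ D.ES
      · exact Or.inl ⟨he, h3⟩
      · rw [wall_iff hF he] at h3
        exact Or.inr ⟨⟨h1, h2, he⟩, h3⟩
    · rintro (⟨he, h3⟩ | ⟨⟨h1, h2, he⟩, h3⟩)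
      · obtain ⟨h1, h2⟩ := ES_bx hfit he
        exact ⟨h1, h2, h3⟩
      · rw [← wall_iff hF he] at h3
        exact ⟨h1, h2, h3⟩
  rw [hset, Set.ncard_union_eq ?_ (Finset.finite_toSet _)
    ((fin_V (bx l r c d)).subset fun e he => he.1.1), Set.ncard_coe_finset]
  rw [Set.disjoint_left]
  intro e he he'
  rw [Finset.mem_coe] at he
  unfold Pool.Agent.H950.ON.TD.om at he
  rw [Finset.mem_filter, D.mem_E] at he
  exact he'.1.2.2 he.1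

end Pool.Agent.H190.ON.crd
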